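import Pool.Agent.L0h31.HS.B8

/-!
# Towers of fibrations: a closed subgroup which is small in one chart acts trivially

Adaptation of `Pool/Agent/R775/HS/Glob.lean`.
-/

set_option autoImplicit false
set_option linter.unusedSectionVars false

open MeasureTheory Set Metric Filter Topology
open scoped ENNReal NNReal

namespace Pool.Agent.L0h93.HT

open Pool.Agent.Y485.HS Pool.Agent.Y489.SP Pool.Agent.R775.HS

section
variable {n : ℕ} {X : Type} [TopologicalSpace X] {A : Set (OpenPartialHomeomorph X (E n))}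

/-- A closed subgroup which is small in one chart acts trivially. -/
theorem small_triv (hn : 1 ≤ n) [T2Space X] (hA : Stable n A)
    {H : Type} [Group H] [TopologicalSpace H] [IsTopologicalGroup H] [CompactSpace H] [T2Space H]
    [TotallyDisconnectedSpace H] [MulAction H X] [ContinuousSMul H X]
    (hdense : Dense (RegA A)) (hconn : IsPreconnected (RegA A)) (hcrit : ∀ h : H, Crit A h)
    (hsub : ∀ (K : Subgroup H) (P : Subgroup K), CompactSpace P → ∀ (q : P),
      Crit A ((q : K) : H) → Crit A q) {φ : OpenPartialHomeomorph X (E n)} (hφ : φ ∈ A)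
    {K : Subgroup H} (hKc : IsClosed (K : Set H)) (hKs : Small φ (K : Set H)) :
    ∀ k ∈ K, ∀ x : X, k • x = x := by
  have : CompactSpace K := isCompact_iff_compactSpace.1 hKc.isCompact
  obtain ⟨x0, hx0e⟩ : ∃ x0, x0 = φ.symm 0 := ⟨_, rfl⟩
  have h0t : (0 : E n) ∈ φ.target := hKs.1 (by simp)
  have hxφ : x0 ∈ φ.source := by rw [hx0e]; exact φ.map_target h0t
  have hφ0 : φ x0 = 0 := by rw [hx0e]; exact φ.right_inv h0t
  have hx0 : x0 ∈ RegA A := ⟨φ, hφ, hxφ⟩
  have hKt : ∀ᶠ x in 𝓝 x0, ∀ k ∈ K, k • x = x := by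
    have hDc : IsClosed (trivSub K (φ.symm '' ball (0 : E n) 1) : Set K) :=
      isClosed_triv (Subtype.val : K → H) continuous_subtype_val _
    have hD : trivSub K (φ.symm '' ball (0 : E n) 1) = ⊤ := by
      refine Pool.Agent.Y215.HS.syl K _ hDc ?_
      intro p hp P hPc hPp k hk
      have : CompactSpace P := isCompact_iff_compactSpace.1 hPc.isCompact
      have h1 : Tendsto (fun j : ℕ => (⟨k, hk⟩ : P) ^ p ^ j) atTop (𝓝 1) :=
        Pool.Agent.Y340.SP.t_POW p hp P hPp ⟨k, hk⟩
      have hc : Continuous (fun q : P => ((q : K) : H)) :=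
        continuous_subtype_val.comp continuous_subtype_val
      have h2 : Tendsto (fun j : ℕ => (k : H) ^ p ^ j) atTop (𝓝 1) := by
        have h3 := (hc.tendsto 1).comp h1
        simpa [Function.comp_def] using h3
      rintro _ ⟨v, hv, rfl⟩
      exact triv_ball hn hφ hKc hKs hp k.2 h2 (hcrit _) v hv
    have hopen : IsOpen (φ.source ∩ φ ⁻¹' ball 0 1) :=
      φ.isOpen_inter_preimage isOpen_ball
    have hmem : x0 ∈ φ.source ∩ φ ⁻¹' ball 0 1 := ⟨hxφ, by simp [hφ0]⟩
    filter_upwards [hopen.mem_nhds hmem] with x hx k hk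
    have h1 : (⟨k, hk⟩ : K) ∈ trivSub K (φ.symm '' ball (0 : E n) 1) := by
      rw [hD]; exact Subgroup.mem_top _
    exact h1 x ⟨φ x, hx.2, φ.left_inv hx.1⟩
  have hDc : IsClosed (trivSub K (univ : Set X) : Set K) :=
    isClosed_triv (Subtype.val : K → H) continuous_subtype_val _
  have hD : trivSub K (univ : Set X) = ⊤ := by
    refine Pool.Agent.Y215.HS.syl K _ hDc ?_
    intro p hp P hPc hPp k hk
    have : CompactSpace P := isCompact_iff_compactSpace.1 hPc.isCompact
    -- the interior of the fixed set of `P`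
    let Z : Set X := {x | ∀ᶠ y in 𝓝 x, ∀ q : P, q • y = y}
    have hZo : IsOpen Z := by
      rw [isOpen_iff_mem_nhds]
      intro x hx
      exact eventually_eventually_nhds.2 hx
    have hZx : x0 ∈ Z := by
      filter_upwards [hKt] with y hy q
      exact hy ((q : K) : H) (q : K).2
    have hsubZ : RegA A ⊆ Z := by
      refine hconn.subset_of_closure_inter_subset hZo ⟨x0, hx0, hZx⟩ ?_
      rintro x ⟨hxZ, hxR⟩
      refine news' hn hA hp hPp (fun q => hsub K P inferInstance q (hcrit _)) hxR ?_
      intro V hV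
      obtain ⟨a, haV, haZ⟩ := mem_closure_iff_nhds.1 hxZ V hV
      exact ⟨a, haV, haZ⟩
    intro x _
    have hcl : IsClosed {x : X | (k : H) • x = x} :=
      isClosed_eq (continuous_const_smul (k : H)) continuous_id
    have h2 : RegA A ⊆ {x : X | (k : H) • x = x} := by
      intro y hy
      exact (hsubZ hy).self_of_nhds ⟨k, hk⟩
    have h3 := hcl.closure_subset_iff.2 h2
    rw [hdense.closure_eq] at h3
    exact h3 (mem_univ x)
  intro k hk x
  have h1 : (⟨k, hk⟩ : K) ∈ trivSub K (univ : Set X) := by rw [hD]; exact Subgroup.mem_top _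
  exact h1 x (mem_univ x)

end

end Pool.Agent.L0h93.HT
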