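import Pool.Agent.L0h31.HS.B8

/-!
# Towers of fibrations: charts of the fibres
-/

set_option autoImplicit false
set_option linter.unusedSectionVars false

open MeasureTheory Set Metric Filter Topology
open scoped ENNReal NNReal

namespace Pool.Agent.L0h93.HT

open Pool.Agent.Y485.HS Pool.Agent.Y489.SP Pool.Agent.R775.HS Pool.Agent.R775.HC

/-- The fibre. -/
abbrev Fib {X B : Type} (π : X → B) (b : B) : Type := {x : X // π x = b}

section
variable {m : ℕ} {X B : Type} [MetricSpace X] [TopologicalSpace B] {π : X → B}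

/-- The charts, bi-Lipschitz unless `m = 1`. -/
def AA (m : ℕ) (Y : Type) [MetricSpace Y] : Set (OpenPartialHomeomorph Y (E m)) :=
  {φ | m = 1 ∨ φ ∈ BL m Y}

theorem stable_AA (m : ℕ) (Y : Type) [MetricSpace Y] : Stable m (AA m Y) := by
  intro φ hφ e he
  rcases hφ with h | h
  · exact Or.inl h
  · exact Or.inr (stable_BL m Y φ h e he)

theorem AA_eq {m : ℕ} (hm : 2 ≤ m) (Y : Type) [MetricSpace Y] : AA m Y = BL m Y := by
  ext φ
  constructor
  · rintro (h | h)
    · omega
    · exact h
  · exact Or.inr

/-- A product chart near the point, bi-Lipschitz along the fibres over `D` unless `m = 1`. -/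
def PChart (m : ℕ) (π : X → B) (D : Set B) (x : X) : Prop :=
  ∃ Φ : OpenPartialHomeomorph X (B × E m), x ∈ Φ.source ∧ (∀ y ∈ Φ.source, (Φ y).1 = π y) ∧
    (m = 1 ∨ ∀ b ∈ D, ∃ L : ℝ, ∀ y ∈ Φ.source, π y = b → ∀ z ∈ Φ.source, π z = b →
      dist (Φ y).2 (Φ z).2 ≤ L * dist y z ∧ dist y z ≤ L * dist (Φ y).2 (Φ z).2)

/-- the restriction of a product chart to a fibre -/
theorem exists_leaf (Φ : OpenPartialHomeomorph X (B × E m))
    (hΦ : ∀ x ∈ Φ.source, (Φ x).1 = π x) (b : B) (x0 : Fib π b) :
    ∃ φ : OpenPartialHomeomorph (Fib π b) (E m), φ.source = {x | x.1 ∈ Φ.source} ∧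
      φ.target = {v | (b, v) ∈ Φ.target} ∧ (∀ x, φ x = (Φ x.1).2) ∧
      ∀ v ∈ φ.target, (φ.symm v).1 = Φ.symm (b, v) := by
  classical
  have hpr : ∀ v : E m, (b, v) ∈ Φ.target → π (Φ.symm (b, v)) = b := by
    intro v hv
    have h1 := hΦ _ (Φ.map_target hv)
    rw [Φ.right_inv hv] at h1
    exact h1.symm
  have hpt : ∀ x : Fib π b, x.1 ∈ Φ.source → (b, (Φ x.1).2) = Φ x.1 := by
    intro x hx
    refine Prod.ext ?_ rfl
    rw [hΦ _ hx, x.2]
  let f : Fib π b → E m := fun x => (Φ x.1).2
  let g : E m → Fib π b := fun v => if h : (b, v) ∈ Φ.target then ⟨Φ.symm (b, v), hpr v h⟩ else x0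
  have hg : ∀ v, (b, v) ∈ Φ.target → (g v).1 = Φ.symm (b, v) := by
    intro v hv
    simp only [g, hv, dif_pos]
  refine ⟨{ toFun := f
            invFun := g
            source := {x | x.1 ∈ Φ.source}
            target := {v | (b, v) ∈ Φ.target}
            map_source' := ?_
            map_target' := ?_
            left_inv' := ?_
            right_inv' := ?_
            open_source := ?_
            open_target := ?_
            continuousOn_toFun := ?_
            continuousOn_invFun := ?_ }, rfl, rfl, fun x => rfl, fun v hv => hg v hv⟩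
  · intro x hx
    show (b, (Φ x.1).2) ∈ Φ.target
    rw [hpt x hx]
    exact Φ.map_source hx
  · intro v hv
    show (g v).1 ∈ Φ.source
    rw [hg v hv]
    exact Φ.map_target hv
  · intro x hx
    have h1 : (b, (Φ x.1).2) ∈ Φ.target := by
      rw [hpt x hx]
      exact Φ.map_source hx
    apply Subtype.ext
    rw [hg _ h1, hpt x hx]
    exact Φ.left_inv hx
  · intro v hv
    show (Φ (g v).1).2 = v
    rw [hg v hv, Φ.right_inv hv]
  · refine continuous_snd.comp_continuousOn ?_
    exact Φ.continuousOn.comp continuous_subtype_val.continuousOn fun x hx => hx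
  · have h0 : Topology.IsInducing (Subtype.val : Fib π b → X) := ⟨rfl⟩
    rw [h0.continuousOn_iff]
    have h1 : ContinuousOn (fun v : E m => Φ.symm (b, v)) {v | (b, v) ∈ Φ.target} :=
      Φ.continuousOn_symm.comp (by fun_prop : Continuous fun v : E m => (b, v)).continuousOn
        fun v hv => hv
    exact h1.congr fun v hv => hg v hv
  · exact Φ.open_source.preimage continuous_subtype_val
  · exact Φ.open_target.preimage (by fun_prop : Continuous fun v : E m => (b, v))

/-- the action on the fibre -/
@[reducible] def fibAct {H : Type} [Group H] [MulAction H X] (hH : ∀ (h : H) (x : X), π (h • x) = π x)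
    (b : B) : MulAction H (Fib π b) where
  smul h x := ⟨h • x.1, by rw [hH, x.2]⟩
  one_smul x := Subtype.ext (one_smul H x.1)
  mul_smul g h x := Subtype.ext (mul_smul g h x.1)

theorem fibAct_cont {H : Type} [Group H] [TopologicalSpace H] [MulAction H X]
    [ContinuousSMul H X] (hH : ∀ (h : H) (x : X), π (h • x) = π x) (b : B) :
    @ContinuousSMul H (Fib π b) (fibAct hH b).toSMul _ _ := by
  let _ := fibAct hH b
  refine ⟨?_⟩
  have h1 : Continuous (fun q : H × Fib π b => q.1 • q.2.1) := by fun_prop
  exact h1.subtype_mk _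

end

end Pool.Agent.L0h93.HT
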