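import Pool.Agent.L0h31.HS.B8

/-!
# Towers of fibrations: one-dimensional fibres
-/

set_option autoImplicit false
set_option linter.unusedSectionVars false

open MeasureTheory Set Metric Filter Topology
open scoped ENNReal NNReal

namespace Pool.Agent.L0h93.HT

open Pool.Agent.Y485.HS Pool.Agent.Y489.SP Pool.Agent.R775.HS Pool.Agent.R775.HC

/-- the point with the coordinate `t` -/
noncomputable def pt (t : ℝ) : E 1 := EuclideanSpace.single 0 t

theorem pt_coord (v : E 1) : pt (v 0) = v := by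
  ext i
  rw [Fin.fin_one_eq_zero i]
  simp [pt]

theorem coord_pt (t : ℝ) : pt t 0 = t := by simp [pt]

theorem dist_pt (v w : E 1) : dist v w = |v 0 - w 0| := by
  rw [EuclideanSpace.dist_eq]
  simp [Real.dist_eq, Real.sqrt_sq_eq_abs]

theorem pt_cont : Continuous pt := by
  refine (LipschitzWith.of_dist_le_mul (K := 1) fun s t => ?_).continuous
  rw [dist_pt, coord_pt, coord_pt, Real.dist_eq]
  simp

theorem pt_mem {r t : ℝ} : pt t ∈ closedBall (0 : E 1) r ↔ |t| ≤ r := by
  rw [mem_closedBall, dist_pt, coord_pt]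
  simp

/-- In dimension one every small `p`-adic element acts trivially. -/
theorem triv_one {X : Type} [TopologicalSpace X] [T2Space X] {H : Type} [Group H]
    [TopologicalSpace H] [IsTopologicalGroup H] [MulAction H X] [ContinuousSMul H X]
    {φ : OpenPartialHomeomorph X (E 1)} {g : H} {p : ℕ} (hp : p.Prime)
    (hg : Tendsto (fun j : ℕ => g ^ p ^ j) atTop (𝓝 1))
    (hs : Small φ ((Subgroup.zpowers g).topologicalClosure : Set H)) :
    ∀ v ∈ closedBall (0 : E 1) 3, g • φ.symm v = φ.symm v := by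
  have hmem : ∀ k : ℕ, g ^ k ∈ ((Subgroup.zpowers g).topologicalClosure : Set H) := fun k =>
    Subgroup.le_topologicalClosure _ (Subgroup.npow_mem_zpowers g k)
  have hmemi : ∀ k : ℕ, (g ^ k)⁻¹ ∈ ((Subgroup.zpowers g).topologicalClosure : Set H) := fun k =>
    Subgroup.inv_mem _ (hmem k)
  -- the map `T_k` in the coordinate
  let T : ℕ → ℝ → ℝ := fun k t => (φ (g ^ k • φ.symm (pt t))) 0
  have hTd : ∀ k, ∀ t ∈ Icc (-4 : ℝ) 4, |T k t - t| ≤ 1 / 4 := by
    intro k t ht
    have h1 := (hs.2 _ (hmem k) (pt t) (pt_mem.2 (abs_le.2 ht))).2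
    rw [dist_pt, coord_pt] at h1
    exact h1
  have hTc : ∀ k, ContinuousOn (T k) (Icc (-4 : ℝ) 4) := by
    intro k
    have h1 : ContinuousOn (fun t : ℝ => g ^ k • φ.symm (pt t)) (Icc (-4 : ℝ) 4) := by
      refine ContinuousOn.const_smul ?_ _
      exact φ.continuousOn_symm.comp pt_cont.continuousOn fun t ht =>
        hs.1 (pt_mem.2 (abs_le.2 ht))
    have h2 : ContinuousOn (fun t : ℝ => φ (g ^ k • φ.symm (pt t))) (Icc (-4 : ℝ) 4) :=
      φ.continuousOn.comp h1 fun t ht => (hs.2 _ (hmem k) (pt t) (pt_mem.2 (abs_le.2 ht))).1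
    have h3 : Continuous (fun v : E 1 => v 0) := by fun_prop
    exact h3.comp_continuousOn h2
  have hTi : ∀ k, InjOn (T k) (Icc (-4 : ℝ) 4) := by
    intro k s hs' t ht hst
    have hs4 : pt s ∈ closedBall (0 : E 1) 4 := pt_mem.2 (abs_le.2 hs')
    have ht4 : pt t ∈ closedBall (0 : E 1) 4 := pt_mem.2 (abs_le.2 ht)
    have h1 : φ (g ^ k • φ.symm (pt s)) = φ (g ^ k • φ.symm (pt t)) := by
      rw [← pt_coord (φ (g ^ k • φ.symm (pt s))), ← pt_coord (φ (g ^ k • φ.symm (pt t)))]
      exact congrArg pt hst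
    have h2 := φ.injOn (hs.2 _ (hmem k) _ hs4).1 (hs.2 _ (hmem k) _ ht4).1 h1
    have h3 : φ.symm (pt s) = φ.symm (pt t) := smul_left_cancel _ h2
    have h4 : pt s = pt t := by
      rw [← φ.right_inv (hs.1 hs4), h3, φ.right_inv (hs.1 ht4)]
    rw [← coord_pt s, h4, coord_pt]
  have hTm : ∀ k, StrictMonoOn (T k) (Icc (-4 : ℝ) 4) := by
    intro k
    rcases (hTc k).strictMonoOn_of_injOn_Icc' (by norm_num) (hTi k) with h | h
    · exact h
    · exfalso
      have h1 := h (show (-4 : ℝ) ∈ Icc (-4 : ℝ) 4 by constructor <;> norm_num)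
        (show (4 : ℝ) ∈ Icc (-4 : ℝ) 4 by constructor <;> norm_num) (by norm_num)
      have h2 := abs_le.1 (hTd k (-4) (by constructor <;> norm_num))
      have h3 := abs_le.1 (hTd k 4 (by constructor <;> norm_num))
      linarith [h2.1, h2.2, h3.1, h3.2]
  have hT1 : ∀ k, ∀ t ∈ Icc (-3 : ℝ) 3, T (k + 1) t = T k (T 1 t) := by
    intro k t ht
    have ht4 : t ∈ Icc (-4 : ℝ) 4 := ⟨by linarith [ht.1], by linarith [ht.2]⟩
    show (φ (g ^ (k + 1) • φ.symm (pt t))) 0 =
      (φ (g ^ k • φ.symm (pt ((φ (g ^ 1 • φ.symm (pt t))) 0)))) 0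
    rw [pt_coord, φ.left_inv (hs.2 _ (hmem 1) _ (pt_mem.2 (abs_le.2 ht4))).1, ← mul_smul,
      pow_one, ← pow_succ]
  have hT0 : ∀ t ∈ Icc (-4 : ℝ) 4, T 0 t = t := by
    intro t ht
    show (φ (g ^ 0 • φ.symm (pt t))) 0 = t
    rw [pow_zero, one_smul, φ.right_inv (hs.1 (pt_mem.2 (abs_le.2 ht))), coord_pt]
  have hlim : ∀ t ∈ Icc (-3 : ℝ) 3, Tendsto (fun j : ℕ => T (p ^ j) t) atTop (𝓝 t) := by
    intro t ht
    have ht4 : t ∈ Icc (-4 : ℝ) 4 := ⟨by linarith [ht.1], by linarith [ht.2]⟩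
    have h4 : pt t ∈ closedBall (0 : E 1) 4 := pt_mem.2 (abs_le.2 ht4)
    have h1 : Tendsto (fun j : ℕ => g ^ p ^ j • φ.symm (pt t)) atTop (𝓝 (φ.symm (pt t))) := by
      have := hg.smul_const (φ.symm (pt t))
      rwa [one_smul] at this
    have h2 : ContinuousAt φ (φ.symm (pt t)) := φ.continuousAt (φ.map_target (hs.1 h4))
    have h3 := h2.tendsto.comp h1
    rw [φ.right_inv (hs.1 h4)] at h3
    have h5 : Continuous (fun v : E 1 => v 0) := by fun_prop
    have h6 := (h5.tendsto _).comp h3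
    simp only [coord_pt] at h6
    exact h6
  have key : ∀ t ∈ Icc (-3 : ℝ) 3, T 1 t = t := by
    intro t ht
    have ht4 : t ∈ Icc (-4 : ℝ) 4 := ⟨by linarith [ht.1], by linarith [ht.2]⟩
    have hd := abs_le.1 (hTd 1 t ht4)
    have h14 : T 1 t ∈ Icc (-4 : ℝ) 4 :=
      ⟨by linarith [hd.1, ht.1], by linarith [hd.2, ht.2]⟩
    rcases lt_trichotomy (T 1 t) t with h | h | h
    · exfalso
      have hk : ∀ k : ℕ, T (k + 1) t ≤ T 1 t := by
        intro k
        induction k with
        | zero => exact le_of_eq (by simp)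
        | succ k ih =>
          rw [hT1 (k + 1) t ht]
          exact ((hTm (k + 1)).le_iff_le h14 ht4 |>.2 h.le).trans ih
      have h2 : t ≤ T 1 t := by
        refine le_of_tendsto (hlim t ht) (Filter.Eventually.of_forall fun j => ?_)
        obtain ⟨k, hk'⟩ := Nat.exists_eq_succ_of_ne_zero (pow_pos hp.pos j).ne'
        rw [hk']
        exact hk k
      linarith
    · exact h
    · exfalso
      have hk : ∀ k : ℕ, T 1 t ≤ T (k + 1) t := by
        intro k
        induction k with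
        | zero => exact le_of_eq (by simp)
        | succ k ih =>
          rw [hT1 (k + 1) t ht]
          exact ih.trans ((hTm (k + 1)).le_iff_le ht4 h14 |>.2 h.le)
      have h2 : T 1 t ≤ t := by
        refine ge_of_tendsto (hlim t ht) (Filter.Eventually.of_forall fun j => ?_)
        obtain ⟨k, hk'⟩ := Nat.exists_eq_succ_of_ne_zero (pow_pos hp.pos j).ne'
        rw [hk']
        exact hk k
      linarith
  intro v hv
  have hv3 : v 0 ∈ Icc (-3 : ℝ) 3 := by
    have h1 := hv
    rw [← pt_coord v, pt_mem] at h1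
    exact abs_le.1 h1
  have hv4 : v ∈ closedBall (0 : E 1) 4 := closedBall_subset_closedBall (by norm_num) hv
  have h1 := key (v 0) hv3
  have h2 : φ (g • φ.symm v) = v := by
    rw [← pt_coord (φ (g • φ.symm v))]
    conv_rhs => rw [← pt_coord v]
    congr 1
    have h3 : T 1 (v 0) = (φ (g ^ 1 • φ.symm (pt (v 0)))) 0 := rfl
    rw [pow_one, pt_coord] at h3
    rw [← h3, h1]
  have h3 := (hs.2 _ (hmem 1) v hv4).1
  rw [pow_one] at h3
  rw [← φ.left_inv h3, h2]

theorem crit_one {X : Type} [TopologicalSpace X] [T2Space X] {H : Type} [Group H]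
    [TopologicalSpace H] [IsTopologicalGroup H] [MulAction H X] [ContinuousSMul H X]
    (A : Set (OpenPartialHomeomorph X (E 1))) (g : H) : Crit A g := by
  intro p hp hg hcomp φ hφ hs
  have h := triv_one hp hg hs
  have h34 : closedBall (0 : E 1) 3 ⊆ closedBall 0 4 := closedBall_subset_closedBall (by norm_num)
  refine ⟨id, continuousOn_id, fun v hv => by simp, fun v hv => ?_, fun v hv _ => rfl, ?_⟩
  · rw [h v hv]
    exact φ.right_inv (hs.1 (h34 hv))
  · intro y hy ε hε
    refine ⟨y, hy, by rwa [dist_self], ?_⟩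
    intro C _ hCc hC3 _ _
    obtain ⟨v, hv⟩ := hCc.nonempty
    exact ⟨v, hv, h v (hC3 hv)⟩

end Pool.Agent.L0h93.HT
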