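import Pool.Agent.L0h93.HT.T1
import Pool.Agent.L0h93.HT.T2

/-!
# Towers of fibrations: from small displacements on a dense set of fibres to all fibres
-/

set_option autoImplicit false
set_option linter.unusedSectionVars false

open MeasureTheory Set Metric Filter Topology
open scoped ENNReal NNReal

namespace Pool.Agent.L0h93.HT

open Pool.Agent.Y485.HS Pool.Agent.Y489.SP Pool.Agent.R775.HS Pool.Agent.R775.HC

section
variable {m : ℕ} {X B : Type} [MetricSpace X] [TopologicalSpace B] {π : X → B}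
  {H : Type} [Group H] [TopologicalSpace H] [IsTopologicalGroup H] [MulAction H X]
  [ContinuousSMul H X]

/-- the displacements in the leaf over `b` are small -/
def Leafy (Φ : OpenPartialHomeomorph X (B × E m)) (a : E m) (c : ℝ) (b : B) (h : H) : Prop :=
  ∀ v ∈ closedBall (0 : E m) 4, (b, c⁻¹ • v + a) ∈ Φ.target ∧
    h • Φ.symm (b, c⁻¹ • v + a) ∈ Φ.source ∧
      dist (c • ((Φ (h • Φ.symm (b, c⁻¹ • v + a))).2 - a)) v ≤ 1 / 4

/-- a compact set of elements which act trivially on a fibre has small displacements on the leaves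
of the fibres close to it -/
theorem tube {Φ : OpenPartialHomeomorph X (B × E m)} (hΦ : ∀ y ∈ Φ.source, (Φ y).1 = π y)
    {a : E m} {c : ℝ} (hc0 : 0 < c) {b1 : B}
    (hsv : ∀ v ∈ closedBall (0 : E m) 4, (b1, c⁻¹ • v + a) ∈ Φ.target) {S : Set H}
    (hS : IsCompact S) (hb1 : ∀ k ∈ S, ∀ x : X, π x = b1 → k • x = x) :
    ∀ᶠ z : H × B in 𝓝 (1, b1), ∀ k ∈ S, Leafy Φ a c z.2 (z.1 * k) := by
  have key : ∀ᶠ z : H × B in 𝓝 (1, b1), ∀ q ∈ S ×ˢ closedBall (0 : E m) 4,
      (z.2, c⁻¹ • q.2 + a) ∈ Φ.target ∧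
        (z.1 * q.1) • Φ.symm (z.2, c⁻¹ • q.2 + a) ∈ Φ.source ∧
        dist (c • ((Φ ((z.1 * q.1) • Φ.symm (z.2, c⁻¹ • q.2 + a))).2 - a)) q.2 ≤ 1 / 4 := by
    refine (hS.prod (isCompact_closedBall (0 : E m) 4)
      ).eventually_forall_of_forall_eventually (P := fun (z : H × B) (q : H × E m) =>
        (z.2, c⁻¹ • q.2 + a) ∈ Φ.target ∧
          (z.1 * q.1) • Φ.symm (z.2, c⁻¹ • q.2 + a) ∈ Φ.source ∧
        dist (c • ((Φ ((z.1 * q.1) • Φ.symm (z.2, c⁻¹ • q.2 + a))).2 - a)) q.2 ≤ 1 / 4) ?_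
    rintro ⟨k, v⟩ ⟨hk, hv⟩
    have hvt := hsv v hv
    have h0 : ContinuousAt (fun z : (H × B) × (H × E m) =>
        ((z.1.2, c⁻¹ • z.2.2 + a) : B × E m)) ((1, b1), (k, v)) := by
      have : Continuous (fun z : (H × B) × (H × E m) =>
        ((z.1.2, c⁻¹ • z.2.2 + a) : B × E m)) := by fun_prop
      exact this.continuousAt
    have h1 : ContinuousAt (fun z : (H × B) × (H × E m) =>
        (z.1.1 * z.2.1) • Φ.symm (z.1.2, c⁻¹ • z.2.2 + a)) ((1, b1), (k, v)) := by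
      refine ContinuousAt.smul (by fun_prop) ?_
      exact ContinuousAt.comp (f := fun z : (H × B) × (H × E m) =>
        ((z.1.2, c⁻¹ • z.2.2 + a) : B × E m)) (x := ((1, b1), (k, v)))
        (Φ.continuousAt_symm hvt) h0
    have hπv : π (Φ.symm (b1, c⁻¹ • v + a)) = b1 := by
      have h := hΦ _ (Φ.map_target hvt)
      rw [Φ.right_inv hvt] at h
      exact h.symm
    have hfix : (1 * k) • Φ.symm (b1, c⁻¹ • v + a) = Φ.symm (b1, c⁻¹ • v + a) := by
      rw [one_mul]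
      exact hb1 k hk _ hπv
    have hs1 : (1 * k) • Φ.symm (b1, c⁻¹ • v + a) ∈ Φ.source := by
      rw [hfix]
      exact Φ.map_target hvt
    have h2 : ContinuousAt Φ ((1 * k) • Φ.symm (b1, c⁻¹ • v + a)) := Φ.continuousAt hs1
    have h3 : ContinuousAt (fun z : (H × B) × (H × E m) =>
        Φ ((z.1.1 * z.2.1) • Φ.symm (z.1.2, c⁻¹ • z.2.2 + a))) ((1, b1), (k, v)) :=
      ContinuousAt.comp (f := fun z : (H × B) × (H × E m) =>
        (z.1.1 * z.2.1) • Φ.symm (z.1.2, c⁻¹ • z.2.2 + a)) (x := ((1, b1), (k, v))) h2 h1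
    have h4 : ContinuousAt (fun z : (H × B) × (H × E m) =>
        c • ((Φ ((z.1.1 * z.2.1) • Φ.symm (z.1.2, c⁻¹ • z.2.2 + a))).2 - a))
          ((1, b1), (k, v)) :=
      (h3.snd.sub continuousAt_const).const_smul c
    have h5 : Tendsto (fun z : (H × B) × (H × E m) =>
        dist (c • ((Φ ((z.1.1 * z.2.1) • Φ.symm (z.1.2, c⁻¹ • z.2.2 + a))).2 - a)) z.2.2)
          (𝓝 ((1, b1), (k, v))) (𝓝 0) := by
      have h6 : Tendsto (fun z : (H × B) × (H × E m) =>
        dist (c • ((Φ ((z.1.1 * z.2.1) • Φ.symm (z.1.2, c⁻¹ • z.2.2 + a))).2 - a)) z.2.2)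
          (𝓝 ((1, b1), (k, v)))
          (𝓝 (dist (c • ((Φ ((1 * k) • Φ.symm (b1, c⁻¹ • v + a))).2 - a)) v)) :=
        h4.dist ((continuous_snd.comp continuous_snd).tendsto _)
      have h7 : dist (c • ((Φ ((1 * k) • Φ.symm (b1, c⁻¹ • v + a))).2 - a)) v = 0 := by
        rw [hfix, Φ.right_inv hvt, add_sub_cancel_right, smul_smul, mul_inv_cancel₀ hc0.ne',
          one_smul, dist_self]
      rwa [h7] at h6
    have h8 : ∀ᶠ z : (H × B) × (H × E m) in 𝓝 ((1, b1), (k, v)),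
        (z.1.1 * z.2.1) • Φ.symm (z.1.2, c⁻¹ • z.2.2 + a) ∈ Φ.source :=
      h1.eventually_mem (Φ.open_source.mem_nhds hs1)
    have h9 : ∀ᶠ z : (H × B) × (H × E m) in 𝓝 ((1, b1), (k, v)),
        ((z.1.2, c⁻¹ • z.2.2 + a) : B × E m) ∈ Φ.target :=
      h0.eventually_mem (Φ.open_target.mem_nhds hvt)
    filter_upwards [h8, h9, h5.eventually (gt_mem_nhds (by norm_num : (0 : ℝ) < 1 / 4))] with
      z hz1 hz2 hz3
    exact ⟨hz2, hz1, hz3.le⟩
  filter_upwards [key] with z hz k hk v hv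
  exact hz (k, v) ⟨hk, hv⟩

/-- a closed subgroup with small displacements on a leaf acts trivially on the fibre -/
theorem of_leafy (hm : 1 ≤ m) {D : Set B} [CompactSpace H] [T2Space H]
    [TotallyDisconnectedSpace H] (hH : ∀ (h : H) (x : X), π (h • x) = π x)
    {Φ : OpenPartialHomeomorph X (B × E m)} (hΦ : ∀ y ∈ Φ.source, (Φ y).1 = π y)
    (hL : m = 1 ∨ ∀ b ∈ D, ∃ L : ℝ, ∀ y ∈ Φ.source, π y = b → ∀ z ∈ Φ.source, π z = b →
      dist (Φ y).2 (Φ z).2 ≤ L * dist y z ∧ dist y z ≤ L * dist (Φ y).2 (Φ z).2)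
    {a : E m} {c : ℝ} (hc0 : 0 < c) {b : B} (hbD : b ∈ D)
    (hfib : Dense (RegA (AA m (Fib π b))) ∧ IsPreconnected (RegA (AA m (Fib π b))))
    (hcrit : ∀ h : H, @Crit m (Fib π b) H _ _ _ _ (fibAct hH b) (AA m (Fib π b)) h)
    {K : Subgroup H} (hKc : IsClosed (K : Set H)) (hK : ∀ k ∈ K, Leafy Φ a c b k) :
    ∀ k ∈ K, ∀ x : X, π x = b → k • x = x := by
  obtain ⟨e, he1, he2, he3, he4⟩ := exists_sim (n := m) a hc0
  have h0t := (hK 1 K.one_mem 0 (by simp)).1
  have hx2 : π (Φ.symm (b, c⁻¹ • (0 : E m) + a)) = b := by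
    have h := hΦ _ (Φ.map_target h0t)
    rw [Φ.right_inv h0t] at h
    exact h.symm
  obtain ⟨φ, hφs, hφt, hφ, hφi⟩ := exists_leaf Φ hΦ b ⟨_, hx2⟩
  let _ := fibAct hH b
  have _ := fibAct_cont hH b
  have hφB : φ ∈ AA m (Fib π b) := by
    rcases hL with h1 | hL
    · exact Or.inl h1
    · obtain ⟨L, hL⟩ := hL b hbD
      refine Or.inr ⟨L, fun x hx y hy => ?_⟩
      rw [hφs] at hx hy
      rw [hφ, hφ]
      exact hL x.1 hx x.2 y.1 hy y.2
  have hψB : φ.trans e ∈ AA m (Fib π b) := by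
    refine stable_AA m (Fib π b) φ hφB e ⟨max c c⁻¹, fun x _ y _ => ?_⟩
    have hd : dist (e x) (e y) = c * dist x y := by
      rw [he3, he3, dist_smul₀, Real.norm_of_nonneg hc0.le, dist_sub_right]
    rw [hd]
    constructor
    · exact mul_le_mul_of_nonneg_right (le_max_left _ _) dist_nonneg
    · calc dist x y = c⁻¹ * (c * dist x y) := by field_simp
        _ ≤ max c c⁻¹ * (c * dist x y) :=
          mul_le_mul_of_nonneg_right (le_max_right _ _) (by positivity)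
  have hSm : Small (φ.trans e) (K : Set H) := by
    refine ⟨?_, ?_⟩
    · intro v hv
      rw [OpenPartialHomeomorph.trans_target, he2]
      refine ⟨mem_univ _, ?_⟩
      rw [mem_preimage, he4, hφt]
      exact (hK 1 K.one_mem v hv).1
    · intro h hh v hv
      obtain ⟨q1, q2, q3⟩ := hK h hh v hv
      have hvt : c⁻¹ • v + a ∈ φ.target := by
        rw [hφt]
        exact q1
      have hval : (h • (φ.trans e).symm v).1 = h • Φ.symm (b, c⁻¹ • v + a) := by
        show h • (φ.symm (e.symm v)).1 = _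
        rw [he4, hφi _ hvt]
      refine ⟨?_, ?_⟩
      · rw [OpenPartialHomeomorph.trans_source, he1]
        refine ⟨?_, mem_univ _⟩
        rw [hφs]
        show (h • (φ.trans e).symm v).1 ∈ Φ.source
        rw [hval]
        exact q2
      · have hval2 : (φ.trans e) (h • (φ.trans e).symm v) =
            c • ((Φ (h • Φ.symm (b, c⁻¹ • v + a))).2 - a) := by
          rw [OpenPartialHomeomorph.coe_trans, Function.comp_apply, he3, hφ, hval]
        rw [hval2]
        exact q3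
  have hfin := small_triv hm (stable_AA m (Fib π b)) hfib.1 hfib.2
    hcrit (fun K P _ q hq => crit_of_hom (K.subtype.comp P.subtype)
        (continuous_subtype_val.comp continuous_subtype_val) (fun _ _ => rfl) q hq) hψB hKc hSm
  intro k hk x hx
  exact congrArg Subtype.val (hfin k hk ⟨x, hx⟩)

/-- A profinite group which preserves the fibres and satisfies the local condition on a dense set of
fibres has an open subgroup which acts trivially. -/
theorem step_triv (hm : 1 ≤ m) (hπo : IsOpenMap π) {D R : Set B} (hD : Dense D)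
    (hfib : ∀ b ∈ D, Dense (RegA (AA m (Fib π b))) ∧ IsPreconnected (RegA (AA m (Fib π b))))
    (hR : Dense R) (hRc : IsPreconnected R)
    (hchart : ∀ b ∈ R, ∃ x, π x = b ∧ PChart m π D x)
    [CompactSpace H] [T2Space H] [TotallyDisconnectedSpace H]
    (hH : ∀ (h : H) (x : X), π (h • x) = π x)
    (hcrit : ∀ b ∈ D, ∀ h : H, @Crit m (Fib π b) H _ _ _ _ (fibAct hH b) (AA m (Fib π b)) h) :
    ∃ K : Subgroup H, IsOpen (K : Set H) ∧ ∀ k ∈ K, ∀ x : X, k • x = x := by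
  classical
  rcases isEmpty_or_nonempty B with hB | hB
  · exact ⟨⊤, isOpen_univ, fun k _ x => (hB.false (π x)).elim⟩
  -- the scaled charts
  have hprep : ∀ b1 ∈ R, ∃ (Φ : OpenPartialHomeomorph X (B × E m)) (a : E m) (c : ℝ),
      (∀ y ∈ Φ.source, (Φ y).1 = π y) ∧
      (m = 1 ∨ ∀ b ∈ D, ∃ L : ℝ, ∀ y ∈ Φ.source, π y = b → ∀ z ∈ Φ.source, π z = b →
        dist (Φ y).2 (Φ z).2 ≤ L * dist y z ∧ dist y z ≤ L * dist (Φ y).2 (Φ z).2) ∧ 0 < c ∧
      ∀ v ∈ closedBall (0 : E m) 4, (b1, c⁻¹ • v + a) ∈ Φ.target := by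
    intro b1 hb1
    obtain ⟨x1, hx1, Φ, hxΦ, hΦ, hL⟩ := hchart b1 hb1
    obtain ⟨a, ha⟩ : ∃ a, a = (Φ x1).2 := ⟨_, rfl⟩
    have hpa : (b1, a) = Φ x1 := by
      rw [ha]
      exact Prod.ext (by rw [hΦ _ hxΦ, hx1]) rfl
    have hat : (b1, a) ∈ Φ.target := by
      rw [hpa]
      exact Φ.map_source hxΦ
    have hopen : IsOpen {v : E m | (b1, v) ∈ Φ.target} :=
      Φ.open_target.preimage (by fun_prop : Continuous fun v : E m => (b1, v))
    obtain ⟨r, hr, hball⟩ := Metric.isOpen_iff.1 hopen a hat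
    obtain ⟨c, hc⟩ : ∃ c : ℝ, c = 5 / r := ⟨_, rfl⟩
    have hc0 : 0 < c := by rw [hc]; positivity
    refine ⟨Φ, a, c, hΦ, hL, hc0, fun z hz => ?_⟩
    refine hball ?_
    rw [mem_ball, dist_eq_norm, add_sub_cancel_right, norm_smul, Real.norm_of_nonneg
      (inv_nonneg.2 hc0.le)]
    rw [mem_closedBall, dist_zero_right] at hz
    have h2 : c⁻¹ * ‖z‖ ≤ c⁻¹ * 4 := by gcongr
    have h3 : c⁻¹ * 4 < r := by
      rw [hc, inv_div]
      linarith
    linarith
  -- the start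
  obtain ⟨b0, hb0⟩ := hR.nonempty
  obtain ⟨K, hKo, U0, hU0, hK0⟩ : ∃ K : Subgroup H, IsOpen (K : Set H) ∧ ∃ U ∈ 𝓝 b0,
      ∀ b ∈ U, b ∈ D → ∀ k ∈ K, ∀ x : X, π x = b → k • x = x := by
    obtain ⟨Φ, a, c, hΦ, hL, hc0, hsv⟩ := hprep b0 hb0
    have h1 := tube (H := H) hΦ hc0 hsv (S := {1}) isCompact_singleton (by
      intro k hk x _
      rw [mem_singleton_iff] at hk
      rw [hk, one_smul])
    rw [nhds_prod_eq, Filter.eventually_prod_iff] at h1
    obtain ⟨P1, hP1, P2, hP2, hP⟩ := h1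
    obtain ⟨V, hV, hVo, hV1⟩ := eventually_nhds_iff.1 hP1
    obtain ⟨N, hN⟩ := ProfiniteGrp.exist_openNormalSubgroup_sub_open_nhds_of_one hVo hV1
    refine ⟨N.toSubgroup, N.isOpen, {b | P2 b}, hP2, fun b hb hbD => ?_⟩
    have hNc : IsClosed (N.toSubgroup : Set H) := Subgroup.isClosed_of_isOpen _ N.isOpen
    refine of_leafy (a := a) hm hH hΦ hL hc0 hbD (hfib b hbD) (hcrit b hbD) hNc fun k hk => ?_
    have h2 := hP (hV k (hN hk)) hb 1 rfl
    simpa using h2
  have hKc : IsClosed (K : Set H) := Subgroup.isClosed_of_isOpen K hKo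
  refine ⟨K, hKo, ?_⟩
  set C : Set B := {b | ∀ k ∈ K, ∀ x : X, π x = b → k • x = x} with hC
  have hCc : IsClosed C := by
    have h1 : Cᶜ = π '' (⋃ k ∈ K, {x : X | k • x = x}ᶜ) := by
      ext b
      simp only [hC, mem_compl_iff, mem_ofPred_eq, not_forall, mem_image, mem_iUnion]
      constructor
      · rintro ⟨k, hk, x, hx, h⟩
        exact ⟨x, ⟨k, hk, h⟩, hx⟩
      · rintro ⟨x, ⟨k, hk, h⟩, hx⟩
        exact ⟨k, hk, x, hx, h⟩
    rw [← isOpen_compl_iff, h1]
    refine hπo _ (isOpen_biUnion fun k _ => ?_)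
    exact (isClosed_eq (continuous_const_smul k) continuous_id).isOpen_compl
  have hext : ∀ b1 : B, ∀ U ∈ 𝓝 b1, (∀ b ∈ U, b ∈ D → b ∈ C) → b1 ∈ interior C := by
    intro b1 U hU h
    obtain ⟨U', hU'U, hU'o, hb1⟩ := mem_nhds_iff.1 hU
    refine mem_interior.2 ⟨U', ?_, hU'o, hb1⟩
    refine (hD.open_subset_closure_inter hU'o).trans ?_
    exact hCc.closure_subset_iff.2 fun b hb => h b (hU'U hb.1) hb.2
  have hRC : R ⊆ interior C := by
    refine hRc.subset_of_closure_inter_subset isOpen_interior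
      ⟨b0, hb0, hext b0 U0 hU0 fun b hb hbD => hK0 b hb hbD⟩ ?_
    rintro b1 ⟨hb1C, hb1R⟩
    have hb1C' : b1 ∈ C := hCc.closure_subset_iff.2 interior_subset hb1C
    obtain ⟨Φ, a, c, hΦ, hL, hc0, hsv⟩ := hprep b1 hb1R
    have h1 := tube (H := H) hΦ hc0 hsv (S := (K : Set H)) hKc.isCompact hb1C'
    rw [nhds_prod_eq, Filter.eventually_prod_iff] at h1
    obtain ⟨P1, hP1, P2, hP2, hP⟩ := h1
    refine hext b1 {b | P2 b} hP2 fun b hb hbD => ?_
    refine of_leafy (a := a) hm hH hΦ hL hc0 hbD (hfib b hbD) (hcrit b hbD) hKc fun k hk => ?_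
    have h2 := hP hP1.self_of_nhds hb k hk
    simpa using h2
  have hCu : C = univ := by
    have h1 : closure R ⊆ C := hCc.closure_subset_iff.2 (hRC.trans interior_subset)
    rw [hR.closure_eq] at h1
    exact eq_univ_of_univ_subset h1
  intro k hk x
  have h1 : π x ∈ C := by rw [hCu]; exact mem_univ _
  exact h1 k hk x rfl

end

end Pool.Agent.L0h93.HT
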