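import Pool.Agent.L0h93.HT.T3
import Pool.Agent.L0h93.HT.T4
import Pool.Agent.L0h31.HS.F4

/-!
# Towers of fibrations: the theorem
-/

set_option autoImplicit false
set_option linter.unusedSectionVars false

open MeasureTheory Set Metric Filter Topology
open scoped ENNReal NNReal

namespace Pool.Agent.L0h93.HT

open Pool.Agent.Y485.HS Pool.Agent.Y489.SP Pool.Agent.Y475.HS Pool.Agent.R775.HS
  Pool.Agent.R775.HC Pool.Agent.N512.HS Pool.Agent.L0h31.HS
open Pool.Agent.W660.GY (NSS GY3)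

/-- pointwise Hölder condition along the infinite orbits of a map -/
def HolF (n : ℕ) {Y : Type} [MetricSpace Y] (f : Y → Y) (x : Y) : Prop :=
  ∃ α C δ : ℝ, ((n : ℝ) - 1) / (n + 1) < α ∧ 0 < δ ∧
    ∀ y, (∀ k : ℕ, 0 < k → f^[k] y ≠ y) → dist y x < δ → dist (f y) (f x) ≤ C * dist y x ^ α

/-- regularity at the points of infinite orbit off countably many closed totally disconnected
sets -/
def RegF (n : ℕ) {Y : Type} [MetricSpace Y] [MeasurableSpace Y] [BorelSpace Y] (f : Y → Y) :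
    Prop :=
  ∃ T : ℕ → Set Y, (∀ i, IsClosed (T i)) ∧ (∀ i, IsTotallyDisconnected (T i)) ∧
    ∀ x ∈ RegA (BL n Y), (∀ k : ℕ, 0 < k → f^[k] x ≠ x) → (∀ i, x ∉ T i) →
      HolF n f x ∨ FracAt n f x ∨ SobAt0 n f x ∨ SmallAt' n f x

theorem inf_iff {Y H : Type} [Monoid H] [MulAction H Y] (s : H) (x : Y) :
    InfOrbit s x ↔ ∀ k : ℕ, 0 < k → (fun x : Y => s • x)^[k] x ≠ x := by
  have h : ∀ k : ℕ, (fun x : Y => s • x)^[k] x = s ^ k • x := fun k => by
    rw [smul_iterate]
  simp only [InfOrbit, h]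

theorem regI_of_regF {n : ℕ} (hn : 2 ≤ n) {Y H : Type} [MetricSpace Y] [MeasurableSpace Y]
    [BorelSpace Y] [Group H] [MulAction H Y] [ContinuousConstSMul H Y] (s : H)
    (h : RegF n (fun x : Y => s • x)) :
    Pool.Agent.L0h31.HS.RegI n Y s := by
  obtain ⟨T, hT1, hT2, hT3⟩ := h
  refine ⟨T, hT1, hT2, fun x hx hxI hxT => ?_⟩
  rcases hT3 x hx ((inf_iff s x).1 hxI) hxT with ⟨α, C, δ, h1, h2, h3⟩ | h | h | h
  · exact Or.inr ⟨α, C, δ, h1, h2, fun y hy hyx => h3 y ((inf_iff s y).1 hy) hyx⟩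
  · exact Or.inl (en_frac_chart hn _ h)
  · exact Or.inl (en_sob_chart hn _ h)
  · exact Or.inl (en_small_chart _ h)

/-- the conditions on one step of the tower -/
def Step (m : ℕ) {X B : Type} [MetricSpace X] [TopologicalSpace B] (π : X → B) (D : Set B) :
    Prop :=
  1 ≤ m ∧ IsOpenMap π ∧ Dense D ∧
    (∀ b ∈ D, Dense (RegA (AA m (Fib π b))) ∧ IsPreconnected (RegA (AA m (Fib π b)))) ∧
    ∃ R : Set B, Dense R ∧ IsPreconnected R ∧ ∀ b ∈ R, ∃ x, π x = b ∧ PChart m π D x

/-- every profinite group in `V` has an open subgroup which acts trivially -/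
def STriv {G : Type} [Group G] [TopologicalSpace G] (V : Set G) (X : Type) [MulAction G X] :
    Prop :=
  ∀ (S : Type) [Group S] [TopologicalSpace S] [IsTopologicalGroup S] [CompactSpace S] [T2Space S]
    [TotallyDisconnectedSpace S] (i : S →* G), Continuous i → Function.Injective i →
    (∀ s, i s ∈ V) → ∃ K : Subgroup S, IsOpen (K : Set S) ∧ ∀ k ∈ K, ∀ x : X, i k • x = x

theorem striv_step {m : ℕ} {X B : Type} [MetricSpace X] [MeasurableSpace X] [BorelSpace X]
    [TopologicalSpace B] {π : X → B} {D : Set B} (hstep : Step m π D) {G : Type} [Group G]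
    [TopologicalSpace G] [IsTopologicalGroup G] [T2Space G] [MulAction G X] [ContinuousSMul G X]
    [MulAction G B] (hπ : ∀ (g : G) (x : X), π (g • x) = g • π x) {V : Set G}
    (hreg : m ≠ 1 → ∀ g : G, SmallPow V g → (∀ b : B, g • b = b) → ∀ b ∈ D, ∃ M : ℤ,
      M ≠ 0 ∧ ∃ f : Fib π b → Fib π b, (∀ x, (f x).1 = g ^ M • x.1) ∧ RegF m f)
    (hB : STriv V B) : STriv V X := by
  obtain ⟨hm, hopen, hD, hfib, R, hR, hRc, hchart⟩ := hstep
  intro S _ _ _ _ _ _ i hi hinj hiV
  obtain ⟨K, hKo, hK⟩ := hB S i hi hinj hiV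
  have hKc : IsClosed (K : Set S) := Subgroup.isClosed_of_isOpen K hKo
  have : CompactSpace K := isCompact_iff_compactSpace.1 hKc.isCompact
  obtain ⟨j, hj⟩ : ∃ j : K →* G, j = i.comp K.subtype := ⟨_, rfl⟩
  have hjk : ∀ k : K, j k = i k := fun k => by rw [hj]; rfl
  have hjc : Continuous j := by
    rw [hj]
    exact hi.comp continuous_subtype_val
  let _ : MulAction K X := MulAction.compHom X j
  have hsm : ∀ (k : K) (x : X), k • x = j k • x := fun _ _ => rfl
  have _ : ContinuousSMul K X := ⟨by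
    have h : Continuous (fun q : K × X => j q.1 • q.2) := by fun_prop
    exact h⟩
  have hH : ∀ (k : K) (x : X), π (k • x) = π x := by
    intro k x
    rw [hsm, hπ, hjk, hK k k.2]
  have hcrit : ∀ b ∈ D, ∀ h : K, @Crit m (Fib π b) K _ _ _ _ (fibAct hH b) (AA m (Fib π b)) h := by
    intro b hbD h
    let _ := fibAct hH b
    have _ := fibAct_cont hH b
    rcases Nat.lt_or_ge 1 m with hm2 | hm1
    · rw [AA_eq hm2]
      refine Pool.Agent.L0h31.HS.crit_regI hm2 (fun s => ?_) h
      obtain ⟨M, hM, f, hf, hF⟩ := hreg (by omega) (j s)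
        (smallPow_of_hom j hjc (fun k => by rw [hjk]; exact hiV _) s)
        (fun b => by rw [hjk]; exact hK s s.2 b) b hbD
      refine ⟨M, hM, regI_of_regF hm2 _ ?_⟩
      have hfe : f = fun x : Fib π b => s ^ M • x := by
        funext x
        apply Subtype.ext
        rw [hf]
        show j s ^ M • x.1 = s ^ M • x.1
        rw [hsm, map_zpow]
      rw [← hfe]
      exact hF
    · obtain rfl : m = 1 := by omega
      exact crit_one _ h
  obtain ⟨K', hK'o, hK't⟩ := step_triv hm hopen hD hfib hR hRc hchart hH hcrit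
  refine ⟨K'.map K.subtype, ?_, ?_⟩
  · rw [Subgroup.coe_map]
    exact hKo.isOpenMap_subtype_val _ hK'o
  · rintro _ ⟨k, hk, rfl⟩ x
    have h1 := hK't k hk x
    rw [hsm, hjk] at h1
    exact h1

theorem lie_of_striv {X : Type} [TopologicalSpace X] [T2Space X] {G : Type} [Group G]
    [TopologicalSpace G] [IsTopologicalGroup G] [T2Space G] [LocallyCompactSpace G]
    [MulAction G X] [FaithfulSMul G X] {V : Set G} (hV : V ∈ 𝓝 (1 : G))
    (h : STriv V X) : IsLie G := by
  have hN : NSS G := by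
    refine nss_of_Z V hV ?_
    intro S _ _ _ _ _ _ i hi hinj hiV
    obtain ⟨K, hKo, hKt⟩ := h S i hi hinj hiV
    have hbot : K = ⊥ := by
      rw [eq_bot_iff]
      intro k hk
      rw [Subgroup.mem_bot]
      apply hinj
      refine eq_of_smul_eq_smul (α := X) fun x => ?_
      rw [map_one, one_smul]
      exact hKt k hk x
    rw [hbot] at hKo
    refine discreteTopology_of_isOpen_singleton_one ?_
    convert hKo using 1
    ext x
    simp
  obtain ⟨E, i1, i2, i3, ⟨C⟩⟩ := Pool.Agent.Y328.HS.lga G hN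
  let _ := i1
  let _ := i2
  have _ := i3
  exact Pool.Agent.Y286.HS.lgb G E C

/-- the theorem -/
theorem lie_tower (r : ℕ) (X : ℕ → Type) [∀ i, MetricSpace (X i)] [∀ i, MeasurableSpace (X i)]
    [∀ i, BorelSpace (X i)] (m : ℕ → ℕ) (π : ∀ i, X i → X (i + 1))
    (D : ∀ i, Set (X (i + 1))) (hstep : ∀ i < r, Step (m i) (π i) (D i)) {G : Type} [Group G] [TopologicalSpace G]
    [IsTopologicalGroup G] [LocallyCompactSpace G] [∀ i, MulAction G (X i)]
    [∀ i, ContinuousSMul G (X i)] [FaithfulSMul G (X 0)]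
    (hπ : ∀ i < r, ∀ (g : G) (x : X i), π i (g • x) = g • π i x) {V : Set G}
    (hV : V ∈ 𝓝 (1 : G))
    (htop : ∀ H : Subgroup G, (H : Set G) ⊆ V → ∀ h ∈ H, ∀ x : X r, h • x = x)
    (hreg : ∀ i < r, m i ≠ 1 → ∀ g : G, SmallPow V g → (∀ b : X (i + 1), g • b = b) →
      ∀ b ∈ D i, ∃ M : ℤ, M ≠ 0 ∧ ∃ f : Fib (π i) b → Fib (π i) b,
        (∀ x, (f x).1 = g ^ M • x.1) ∧ RegF (m i) f) : IsLie G := by
  have hT2 : T2Space G := by
    refine ⟨fun g h hgh => ?_⟩
    obtain ⟨x, hx⟩ : ∃ x : X 0, g • x ≠ h • x := by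
      by_contra hall
      push Not at hall
      exact hgh (eq_of_smul_eq_smul hall)
    obtain ⟨u, v, hu, hv, hgu, hhv, huv⟩ := t2_separation hx
    have hc : Continuous (fun g : G => g • x) := by fun_prop
    exact ⟨_, _, hu.preimage hc, hv.preimage hc, hgu, hhv, huv.preimage _⟩
  have key : ∀ d i : ℕ, i + d = r → STriv V (X i) := by
    intro d
    induction d with
    | zero =>
      intro i hi0 S _ _ _ _ _ _ i' hi hinj hiV
      obtain rfl : i = r := by omega
      refine ⟨⊤, isOpen_univ, fun k _ x => ?_⟩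
      refine htop i'.range ?_ (i' k) ⟨k, rfl⟩ x
      rintro _ ⟨s, rfl⟩
      exact hiV s
    | succ d ih =>
      intro i hi
      have hir : i < r := by omega
      exact striv_step (hstep i hir) (hπ i hir) (hreg i hir) (ih (i + 1) (by omega))
  exact lie_of_striv hV (key r 0 (by omega))

end Pool.Agent.L0h93.HT
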